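import Pool.Agent.Helper35.HS3.GoalsD

/-!
# Project HS3, packet FQG: the derivative in `r` of weighted integrals
-/

namespace Pool.Agent.Helper65.HS3.FQG

open Pool.Agent.Helper35.HS3
open MeasureTheory Set Filter Topology Metric
open scoped ContDiff

theorem bw_scale {s : ℝ} (y : E) : bw s (s • y) = s ^ 2 * kk y := by
  unfold bw kk
  rw [norm_smul, mul_pow, Real.norm_eq_abs, sq_abs, mul_max_of_nonneg _ _ (sq_nonneg s)]
  congr 1
  · ring
  · ring

/-- The change of variables `x = s y`. -/
theorem integral_bw (φ : E → ℝ) (n : ℕ) {s : ℝ} (hs : 0 < s) :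
    ∫ x, φ x * bw s x ^ n = s ^ (2 * n + 3) * ∫ y, φ (s • y) * kk y ^ n := by
  have h := integral_scale (fun x => φ x * bw s x ^ n) 0 hs
  simp only [zero_add] at h
  have h2 : ∫ y, φ (s • y) * bw s (s • y) ^ n = s ^ (2 * n) * ∫ y, φ (s • y) * kk y ^ n := by
    rw [← integral_const_mul]
    refine integral_congr_ae (Eventually.of_forall fun y => ?_)
    simp only
    rw [bw_scale, mul_pow, ← pow_mul]
    ring
  rw [h2] at h
  have h3 : (s ^ 3) ≠ 0 := by positivity
  field_simp at h
  rw [← h]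
  ring

theorem integrable_kk_pow_mul {v : E → ℝ} (hv : Continuous v) {n : ℕ} (hn : 1 ≤ n) :
    Integrable fun y => v y * kk y ^ n := by
  have hc : HasCompactSupport (fun y => kk y ^ n) :=
    hasCompactSupport_kk.comp_left (g := fun t : ℝ => t ^ n) (zero_pow (by omega))
  exact (hv.mul (continuous_kk.pow n)).integrable_of_hasCompactSupport hc.mul_left

theorem hasDerivAt_scaled {φ : E → ℝ} (hφ : ContDiff ℝ 1 φ) {n : ℕ} (hn : 1 ≤ n) {r : ℝ}
    (hr : 0 < r) :
    HasDerivAt (fun s : ℝ => ∫ y, φ (s • y) * kk y ^ n)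
      (∫ y, fderiv ℝ φ (r • y) y * kk y ^ n) r := by
  have hfc : Continuous (fderiv ℝ φ) := hφ.continuous_fderiv (by norm_num)
  obtain ⟨C, hC⟩ := (isCompact_closedBall (0 : E) (r + 1)).exists_bound_of_continuousOn
    hfc.continuousOn
  have hC0 : 0 ≤ C := (norm_nonneg _).trans (hC 0 (by
    rw [mem_closedBall, dist_self]; linarith))
  have hbd : Integrable (fun y => C * kk y ^ n) :=
    integrable_kk_pow_mul (v := fun _ => C) continuous_const hn
  have hcont : ∀ s : ℝ, Continuous fun y : E => φ (s • y) := fun s =>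
    hφ.continuous.comp (continuous_const_smul s)
  have h := hasDerivAt_integral_of_dominated_loc_of_deriv_le
    (μ := (volume : Measure E)) (F := fun (s : ℝ) (y : E) => φ (s • y) * kk y ^ n)
    (F' := fun (s : ℝ) (y : E) => fderiv ℝ φ (s • y) y * kk y ^ n) (x₀ := r)
    (s := ball r 1) (bound := fun y => C * kk y ^ n)
    (ball_mem_nhds r one_pos)
    (Eventually.of_forall fun s => ((hcont s).mul (continuous_kk.pow n)).aestronglyMeasurable)
    (integrable_kk_pow_mul (hcont r) hn)
    ?_ ?_ hbd ?_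
  · exact h.2
  · have h1 : Continuous fun y : E => fderiv ℝ φ (r • y) y :=
      (hfc.comp (continuous_const_smul r)).clm_apply continuous_id
    exact (h1.mul (continuous_kk.pow n)).aestronglyMeasurable
  · refine Eventually.of_forall fun y s hs => ?_
    rw [norm_mul, norm_pow, Real.norm_eq_abs (kk y), abs_of_nonneg (kk_nonneg y)]
    by_cases hy : 1 ≤ ‖y‖
    · rw [kk_eq_zero hy, zero_pow (by omega)]
      simp
    · push Not at hy
      refine mul_le_mul_of_nonneg_right ?_ (pow_nonneg (kk_nonneg y) n)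
      have hs' : |s - r| < 1 := by simpa [Real.dist_eq] using hs
      have hs2 : |s| ≤ r + 1 := by
        have := abs_lt.1 hs'
        rw [abs_le]
        constructor <;> linarith
      have h1 : ‖fderiv ℝ φ (s • y)‖ ≤ C := by
        refine hC _ ?_
        rw [mem_closedBall, dist_zero_right, norm_smul, Real.norm_eq_abs]
        calc |s| * ‖y‖ ≤ (r + 1) * 1 := by gcongr
          _ = r + 1 := mul_one _
      calc ‖fderiv ℝ φ (s • y) y‖ ≤ ‖fderiv ℝ φ (s • y)‖ * ‖y‖ := ContinuousLinearMap.le_opNorm _ _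
        _ ≤ C * 1 := by gcongr
        _ = C := mul_one C
  · refine Eventually.of_forall fun y s _ => ?_
    refine HasDerivAt.mul_const ?_ (kk y ^ n)
    have h1 : HasDerivAt (fun t : ℝ => t • y) y s := by
      simpa using (hasDerivAt_id s).smul_const y
    exact (diff_of_one hφ (s • y)).hasFDerivAt.comp_hasDerivAt s h1

theorem proof : FQG_stmt := by
  intro φ n r hφ hn hr
  have h1 := hasDerivAt_scaled hφ hn hr
  have h2 : HasDerivAt (fun s : ℝ => s ^ (2 * n + 3)) (((2 * n + 3 : ℕ) : ℝ) * r ^ (2 * n + 2)) r :=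
    hasDerivAt_pow (2 * n + 3) r
  have h3 := h2.fun_mul h1
  have e : (fun s => ∫ x, φ x * bw s x ^ n) =ᶠ[𝓝 r]
      fun s : ℝ => s ^ (2 * n + 3) * ∫ y, φ (s • y) * kk y ^ n := by
    filter_upwards [Ioi_mem_nhds hr] with s hs
    exact integral_bw φ n hs
  refine (h3.congr_of_eventuallyEq e).congr_deriv ?_
  rw [integral_bw φ n hr, integral_bw (fun x => fderiv ℝ φ x x) n hr]
  have h4 : ∫ y, fderiv ℝ φ (r • y) (r • y) * kk y ^ n =
      r * ∫ y, fderiv ℝ φ (r • y) y * kk y ^ n := by
    rw [← integral_const_mul]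
    refine integral_congr_ae (Eventually.of_forall fun y => ?_)
    simp only [map_smul, smul_eq_mul]
    ring
  rw [h4]
  have hr' : r ≠ 0 := hr.ne'
  push_cast
  field_simp
  ring

end Pool.Agent.Helper65.HS3.FQG
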